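import Mathlib
import Pool.Agent.R195.GWFam

/-! # MP_fc1ccb_an, Q1: periods divisible by `4` exist

For every large `i` there are an irrational `α` with `1 / 10 < α < 1 / 9` and a starting point
whose sign sequence is (purely) periodic with least period `36 i + 16`, a multiple of `4`. -/

set_option autoImplicit false

namespace Pool.Agent.Results.MP_fc1ccb_an.PeriodDivisibleByFour

open Pool.Agent.R195.GW

/-- The negated form of Q1, with arbitrarily large periods divisible by `4`. -/
theorem result (L : ℕ) : ∃ (α : ℝ) (z₀ : ℂ) (ε : ℕ → ℤ) (p : ℕ),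
    0 < α ∧ Irrational α ∧ IsSignSequence α z₀ ε ∧ HasPeriod ε p ∧ 4 ∣ p ∧ L < p := by
  obtain ⟨k₀, hk₀⟩ := family
  obtain ⟨α, z₀, ε, hirr, h1, h2, hs, hp⟩ := hk₀ (2 * (k₀ + L)) (by omega)
  exact ⟨α, z₀, ε, _, by linarith, hirr, hs, hp, by omega, by omega⟩

end Pool.Agent.Results.MP_fc1ccb_an.PeriodDivisibleByFour
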